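import Pool.Agent.Helper79.AL.St3
import Pool.Agent.Helper48.OS.M_NSD
import Pool.Agent.Helper1.OC.M_GLB
import Pool.Agent.Helper88.YF.M_DUA

/-! # AL module DIM: the dimension of the centraliser -/

set_option autoImplicit false

namespace Pool.Agent.Helper2.AL

open Matrix ComplexConjugate Pool.Agent.Helper94.YG
open Pool.Agent.Helper94.YF hiding StORB
open Pool.Agent.Helper89.OS Pool.Agent.Helper89.OC Pool.Agent.Helper79.AL
open Pool.Agent.Helper13.OS (xe_so_ne xe_so_conj xe_uni')

theorem N_rot {I : Type} [Fintype I] [DecidableEq I] (Z : CentreRep I)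
    (hst : ∀ i, Z.st (Z.st i) = i) (i l v : I) : Z.N i l v = Z.N v (Z.st l) i := by
  have h1 := Pool.Agent.Helper48.OS.N_formula Z hst i l v
  have h2 := Pool.Agent.Helper48.OS.N_formula Z hst v (Z.st l) i
  have h3 := congrArg conj h1
  rw [Complex.conj_natCast, map_sum] at h3
  have h4 : (Z.N i l v : ℂ) = Z.N v (Z.st l) i := by
    rw [h3, h2]
    refine Finset.sum_congr rfl fun t _ => ?_
    rw [map_mul, map_mul, map_div₀, Complex.conj_conj, xe_so_conj, Z.s_dual]
    ring
  exact_mod_cast h4

open Classical in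
theorem hDIM : StDIM := by
  intro hGLA hGLB I _ _ Z D hD
  have gla := hGLA I Z
  have glb := hGLB I Z
  obtain ⟨hst, hsto, hdst, -, -, -⟩ := Pool.Agent.Helper88.YF.hDUA I Z.toCentreRep
  have hn : (Z.n : ℂ) ≠ 0 := Nat.cast_ne_zero.2 Z.n_pos.ne'
  -- the weights
  set SD : ℂ := ∑ i, if D i then (Z.d i : ℂ) ^ 2 else 0 with hSD
  have hone : ∀ j, (∑ i, if D i then (Z.d i : ℂ) * Sf Z i j else 0) =
      if Ce Z D j then SD * (Z.d j : ℂ) else 0 := by
    intro j
    by_cases hC : Ce Z D j
    · rw [if_pos hC, hSD, Finset.sum_mul]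
      refine Finset.sum_congr rfl fun i _ => ?_
      by_cases hi : D i
      · rw [if_pos hi, if_pos hi, hC i hi]; ring
      · rw [if_neg hi, if_neg hi, zero_mul]
    · rw [if_neg hC]
      obtain ⟨l, hl, hne⟩ : ∃ l, D l ∧ Sf Z l j ≠ (Z.d l : ℂ) * Z.d j := by
        by_contra hcon
        push Not at hcon
        exact hC fun i hi => hcon i hi
      have hdj : (Z.d j : ℂ) ≠ 0 := Nat.cast_ne_zero.2 (Z.d_pos j).ne'
      have hne2 : Cchi Z j l ≠ (Z.d l : ℂ) := by
        intro h
        apply hne
        rw [gla.Sf_symm, gla.Sf_chi, h]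
        ring
      set T : ℂ := ∑ i, if D i then (Z.d i : ℂ) * Cchi Z j i else 0 with hT
      have hW : ∀ v, (∑ i, if D i then (Z.d i : ℂ) * (Z.N i l v : ℂ) else 0) =
          if D v then (Z.d v : ℂ) * Z.d l else 0 := by
        intro v
        by_cases hv : D v
        · rw [if_pos hv]
          have h1 := glb.dim v (Z.st l)
          rw [show Z.d (Z.st l) = Z.d l from hdst l] at h1
          have h2 : (Z.d v : ℂ) * Z.d l = ∑ i, (Z.N v (Z.st l) i : ℂ) * (Z.d i : ℂ) := by
            exact_mod_cast h1
          rw [h2]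
          refine Finset.sum_congr rfl fun i _ => ?_
          by_cases hi : D i
          · rw [if_pos hi, N_rot Z.toCentreRep hst i l v]; ring
          · rw [if_neg hi]
            have h0 : Z.N v (Z.st l) i = 0 := by
              by_contra hc
              exact hi (hD.fus v (Z.st l) i hv (hD.st l hl) hc)
            rw [h0]; simp
        · rw [if_neg hv]
          refine Finset.sum_eq_zero fun i _ => ?_
          by_cases hi : D i
          · rw [if_pos hi]
            have h0 : Z.N i l v = 0 := by
              by_contra hc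
              exact hv (hD.fus i l v hi hl hc)
            rw [h0]; simp
          · rw [if_neg hi]
      have hkey : Cchi Z j l * T = (Z.d l : ℂ) * T := by
        have e1 : Cchi Z j l * T =
            ∑ i, ∑ v, (if D i then (Z.d i : ℂ) * (Z.N i l v : ℂ) else 0) * Cchi Z j v := by
          rw [hT, Finset.mul_sum]
          refine Finset.sum_congr rfl fun i _ => ?_
          by_cases hi : D i
          · simp only [if_pos hi]
            calc Cchi Z j l * ((Z.d i : ℂ) * Cchi Z j i)
                = (Z.d i : ℂ) * (Cchi Z j i * Cchi Z j l) := by ring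
              _ = _ := by
                rw [gla.chi_mul, Finset.mul_sum]
                exact Finset.sum_congr rfl fun v _ => by ring
          · simp only [if_neg hi]
            simp
        rw [e1, Finset.sum_comm, hT, Finset.mul_sum]
        refine Finset.sum_congr rfl fun v _ => ?_
        rw [← Finset.sum_mul, hW v]
        by_cases hv : D v
        · rw [if_pos hv, if_pos hv]; ring
        · rw [if_neg hv, if_neg hv]; ring
      have hT0 : T = 0 := by
        have : (Cchi Z j l - (Z.d l : ℂ)) * T = 0 := by rw [sub_mul, hkey, sub_self]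
        rcases mul_eq_zero.1 this with h | h
        · exact absurd (sub_eq_zero.1 h) hne2
        · exact h
      have e2 : (∑ i, if D i then (Z.d i : ℂ) * Sf Z i j else 0) = (Z.d j : ℂ) * T := by
        rw [hT, Finset.mul_sum]
        refine Finset.sum_congr rfl fun i _ => ?_
        by_cases hi : D i
        · rw [if_pos hi, if_pos hi, gla.Sf_symm, gla.Sf_chi]; ring
        · rw [if_neg hi, if_neg hi, mul_zero]
      rw [e2, hT0, mul_zero]
  have htwo : ∀ i, ∑ j, (Z.d j : ℂ) * Sf Z i j = if i = Z.o then (Z.n : ℂ) ^ 2 else 0 := by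
    intro i
    have h := Pool.Agent.Helper1.OC.glb_orth Z.toCentreRep i Z.o
    have h2 : ∀ j, (Z.d j : ℂ) * Sf Z i j =
        (Z.n : ℂ) ^ 2 * (Z.rho Sm i j * conj (Z.rho Sm Z.o j)) := by
      intro j
      rw [xe_so_conj, Z.s_o]
      unfold Sf
      field_simp
    simp_rw [h2]
    rw [← Finset.mul_sum, h]
    split_ifs <;> simp
  have hfin : SD * (∑ j, if Ce Z D j then (Z.d j : ℂ) ^ 2 else 0) = (Z.n : ℂ) ^ 2 := by
    calc SD * (∑ j, if Ce Z D j then (Z.d j : ℂ) ^ 2 else 0)
        = ∑ j, (Z.d j : ℂ) * (if Ce Z D j then SD * (Z.d j : ℂ) else 0) := by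
          rw [Finset.mul_sum]
          refine Finset.sum_congr rfl fun j _ => ?_
          by_cases h : Ce Z D j
          · rw [if_pos h, if_pos h]; ring
          · rw [if_neg h, if_neg h]; ring
      _ = ∑ j, (Z.d j : ℂ) * (∑ i, if D i then (Z.d i : ℂ) * Sf Z i j else 0) := by
          exact Finset.sum_congr rfl fun j _ => by rw [hone j]
      _ = ∑ i, (if D i then (Z.d i : ℂ) else 0) * ∑ j, (Z.d j : ℂ) * Sf Z i j := by
          simp_rw [Finset.mul_sum]
          rw [Finset.sum_comm]
          refine Finset.sum_congr rfl fun i _ => Finset.sum_congr rfl fun j _ => ?_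
          by_cases hi : D i
          · rw [if_pos hi, if_pos hi]; ring
          · rw [if_neg hi, if_neg hi]; ring
      _ = (Z.n : ℂ) ^ 2 := by
          simp_rw [htwo]
          rw [Finset.sum_eq_single Z.o]
          · rw [if_pos hD.o, if_pos rfl, Z.d_o]; simp
          · intro i _ hi
            rw [if_neg hi, mul_zero]
          · intro h
            exact absurd (Finset.mem_univ _) h
  have hcast : (((∑ i, if D i then (Z.d i : ℤ) ^ 2 else 0) *
      (∑ j, if Ce Z D j then (Z.d j : ℤ) ^ 2 else 0) : ℤ) : ℂ) = (((Z.n : ℤ) ^ 2 : ℤ) : ℂ) := by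
    push_cast
    exact hfin
  exact_mod_cast hcast

end Pool.Agent.Helper2.AL
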