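import Pool.Agent.Helper24.AL.St
import Pool.Agent.Helper56.SW.M_AP
import Pool.Agent.Helper56.SW.Basic

/-! # MP_e188f1_nt, project AL, module O -/

set_option autoImplicit false

namespace Pool.Agent.Helper2.AL

open Finset
open Pool.Agent.Helper24.AL
open Pool.Agent.Helper56.SW (τ I stAP mem_I mem_I' card_I)

theorem cnt_O (c A B : ℕ) (hc : 1 ≤ c) {α κ : Type} (T : Finset α) (Q : Finset κ) (f g : κ → ℤ)
    (q : α → κ) (s r : α → ℤ) (hq : ∀ a ∈ T, q a ∈ Q)
    (hs : ∀ a ∈ T, s a ∈ I A ∧ (c : ℤ) ∣ s a + f (q a))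
    (hr : ∀ a ∈ T, r a ∈ I B ∧ (c : ℤ) ∣ r a + g (q a))
    (hinj : ∀ a ∈ T, ∀ a' ∈ T, q a = q a' → s a = s a' → r a = r a' → a = a') :
    (T.card : ℝ) ≤ Q.card * ((2 * A / c + 1) * (2 * B / c + 1)) := by
  classical
  have h1 : T.card ≤ (Q.sigma (fun x => ((I A).filter fun y => (c : ℤ) ∣ y + f x) ×ˢ
      ((I B).filter fun y => (c : ℤ) ∣ y + g x))).card := by
    apply card_le_card_of_injOn (fun a => (⟨q a, (s a, r a)⟩ : (_ : κ) × (ℤ × ℤ)))
    · intro a ha
      have ha := mem_coe.1 ha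
      apply mem_coe.2
      rw [mem_sigma, mem_product, mem_filter, mem_filter]
      exact ⟨hq a ha, hs a ha, hr a ha⟩
    · intro a ha a' ha' h
      have ha := mem_coe.1 ha
      have ha' := mem_coe.1 ha'
      simp only [Sigma.mk.injEq, heq_eq_eq, Prod.mk.injEq] at h
      exact hinj a ha a' ha' h.1 h.2.1 h.2.2
  have h2 : ∀ (M : ℕ) (z : ℤ), (((I M).filter fun y => (c : ℤ) ∣ y + z).card : ℝ) ≤
      2 * M / c + 1 := by
    intro M z
    apply stAP M c _ hc (filter_subset _ _)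
    intro x hx y hy
    have h3 := (mem_filter.1 hx).2
    have h4 := (mem_filter.1 hy).2
    have h5 := dvd_sub h3 h4
    have h6 : x + z - (y + z) = x - y := by ring
    rwa [h6] at h5
  rw [card_sigma] at h1
  calc (T.card : ℝ) ≤ ((∑ x ∈ Q, (((I A).filter fun y => (c : ℤ) ∣ y + f x) ×ˢ
      ((I B).filter fun y => (c : ℤ) ∣ y + g x)).card : ℕ) : ℝ) := by exact_mod_cast h1
    _ = ∑ x ∈ Q, ((((I A).filter fun y => (c : ℤ) ∣ y + f x).card : ℝ) *
        (((I B).filter fun y => (c : ℤ) ∣ y + g x).card : ℝ)) := by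
        push_cast [card_product]
        rfl
    _ ≤ ∑ _x ∈ Q, ((2 * A / c + 1) * (2 * B / c + 1) : ℝ) := by
        apply sum_le_sum
        intro x _
        exact mul_le_mul (h2 A _) (h2 B _) (by positivity) (by positivity)
    _ = _ := by rw [sum_const, nsmul_eq_mul]

open Classical in
theorem bd_O (S : Finset ℕ) : (S >>= fun a => (pure (a : ℤ) : Finset ℤ)).card ≤ S.card := by
  have h := congrFun (congrFun (Finset.bind_def (α := ℤ) (β := ℕ)) S)
    (fun a => (pure (a : ℤ) : Finset ℤ))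
  have h2 : (S >>= fun a => (pure (a : ℤ) : Finset ℤ)) ⊆ S.image (fun a : ℕ => (a : ℤ)) := by
    refine h.le.trans (@Finset.sup_le _ _ (_) (_) _ _ _ ?_)
    intro n hn x hx
    have hx' : x = (n : ℤ) := mem_singleton.1 hx
    rw [hx']
    exact mem_image.2 ⟨n, hn, rfl⟩
  exact (card_le_card h2).trans card_image_le

theorem cover_O (k x : Fin 3) : x = k ∨ x = k + 1 ∨ x = k + 2 := by
  revert k x
  decide

theorem sg_O (t : Fin 3 → ℤ) (k : Fin 3) : sg t = t k + t (k + 1) + t (k + 2) := by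
  unfold sg
  fin_cases k
  · rfl
  · show t 0 + t 1 + t 2 = t 1 + t 2 + t 0
    ring
  · show t 0 + t 1 + t 2 = t 2 + t 0 + t 1
    ring

theorem ne_O (k : Fin 3) : k ≠ k + 1 ∧ k + 1 ≠ k + 2 ∧ k ≠ k + 2 ∧ k + 2 ≠ k ∧ k + 1 ≠ k := by
  revert k
  decide

theorem ext_O {t t' : Fin 3 → ℤ} (k : Fin 3) (h0 : t k = t' k) (h1 : t (k + 1) = t' (k + 1))
    (h2 : t (k + 2) = t' (k + 2)) : t = t' := by
  funext x
  rcases cover_O k x with rfl | rfl | rfl
  · exact h0
  · exact h1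
  · exact h2

theorem memBx_O {A B : ℕ} {p : (Fin 3 → ℤ) × (Fin 3 → ℤ)} (h : p ∈ Bx A B) :
    (∀ i, p.1 i ∈ I A) ∧ ∀ i, p.2 i ∈ I B := by
  unfold Bx at h
  rw [mem_product, Fintype.mem_piFinset, Fintype.mem_piFinset] at h
  exact h

open Classical in
theorem WT_le_O (c A B : ℕ) (P : (Fin 3 → ℤ) → (Fin 3 → ℤ) → Prop)
    (hL : ∀ t b, Lam c t b ≤ c) :
    WT c A B P ≤ c * ((Bx A B).filter (fun p => P p.1 p.2 ∧ 0 < Lam c p.1 p.2)).card := by
  unfold WT
  calc ∑ p ∈ (Bx A B).filter (fun p => P p.1 p.2), Lam c p.1 p.2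
      = ∑ p ∈ (Bx A B).filter (fun p => P p.1 p.2 ∧ 0 < Lam c p.1 p.2), Lam c p.1 p.2 := by
        symm
        apply sum_subset
        · intro p hp
          rw [mem_filter] at hp ⊢
          exact ⟨hp.1, hp.2.1⟩
        · intro p hp hp'
          rw [mem_filter] at hp
          by_contra h2
          exact hp' (mem_filter.2 ⟨hp.1, hp.2, Nat.pos_of_ne_zero h2⟩)
    _ ≤ ∑ _p ∈ (Bx A B).filter (fun p => P p.1 p.2 ∧ 0 < Lam c p.1 p.2), c :=
        sum_le_sum fun p _ => hL _ _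
    _ = _ := by rw [sum_const, smul_eq_mul, mul_comm]

theorem hO (hZ0 : StZ0) : StO := by
  classical
  intro c A B D hc hD
  set Z : Finset (ℤ × ℤ) := (I A ×ˢ I B).filter fun p => (c : ℤ) ∣ p.1 * p.2 with hZ
  have hZc : (Z.card : ℝ) ≤ (2 * A + 1) + (2 * B + 1) + 4 * D * A * B / c := hZ0 c A B D hc hD
  set W : Finset ((Fin 3 → ℤ) × (Fin 3 → ℤ)) :=
    (Bx A B).filter (fun p => ¬ Nz p.1 p.2 ∧ 0 < Lam c p.1 p.2) with hW
  have hLam : ∀ t b, Lam c t b ≤ c := by
    intro t b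
    unfold Lam
    refine (card_filter_le _ _).trans ?_
    refine (bd_O (Us c)).trans ?_
    unfold Us
    refine (card_filter_le _ _).trans ?_
    rw [card_range]
  -- the weight
  have hWT : WT c A B (fun t b => ¬ Nz t b) ≤ c * W.card := by
    refine (WT_le_O c A B (fun t b => ¬ Nz t b) hLam).trans
      (Nat.mul_le_mul_left c (card_le_card ?_))
    intro p hp
    rw [hW, mem_filter]
    exact (@mem_filter _ _ (_) _ _).1 hp
  -- one index
  set T1 : Fin 3 → Finset ((Fin 3 → ℤ) × (Fin 3 → ℤ)) := fun k => W.filter fun p => p.1 k = 0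
    with hT1
  set T2 : Fin 3 → Finset ((Fin 3 → ℤ) × (Fin 3 → ℤ)) := fun k => W.filter fun p => p.2 k = 0
    with hT2
  have hEq : ∀ p ∈ W, (∀ i, p.1 i ∈ I A) ∧ (∀ i, p.2 i ∈ I B) ∧ ∃ l : ℤ, Eqs c l p.1 p.2 := by
    intro p hp
    rw [hW, mem_filter] at hp
    obtain ⟨h1, -, h2⟩ := hp
    have h3 := memBx_O h1
    refine ⟨h3.1, h3.2, ?_⟩
    unfold Lam at h2
    obtain ⟨l, hl⟩ := card_pos.1 h2
    exact ⟨l, (mem_filter.1 hl).2⟩
  have hb1 : ∀ k, ((T1 k).card : ℝ) ≤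
      ((Z ×ˢ I B).card : ℝ) * ((2 * A / c + 1) * (2 * B / c + 1)) := by
    intro k
    obtain ⟨n1, n2, n3, n4, n5⟩ := ne_O k
    apply cnt_O c A B hc (T1 k) (Z ×ˢ I B) (fun x => x.1.1) (fun x => x.1.2 + x.2)
      (fun p => ((p.1 (k + 1), p.2 k), p.2 (k + 1))) (fun p => p.1 (k + 2)) (fun p => p.2 (k + 2))
    · intro p hp
      obtain ⟨hpW, hp0⟩ := mem_filter.1 hp
      obtain ⟨hA, hB, l, e1, e2, e3⟩ := hEq p hpW
      rw [mem_product, hZ, mem_filter, mem_product]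
      refine ⟨⟨⟨hA _, hB _⟩, ?_⟩, hB _⟩
      have h1 := e1 (k + 1) k
      rw [hp0, zero_mul, sub_zero] at h1
      exact h1
    · intro p hp
      obtain ⟨hpW, hp0⟩ := mem_filter.1 hp
      obtain ⟨hA, hB, l, e1, e2, e3⟩ := hEq p hpW
      refine ⟨hA _, ?_⟩
      have h1 := e2 k (k + 1) (k + 2) n1 n2 n3
      rw [sg_O p.1 k, hp0] at h1
      have h2 : 0 + p.1 (k + 1) + p.1 (k + 2) + l * (0 * p.1 (k + 1) * p.2 (k + 2)) =
        p.1 (k + 2) + p.1 (k + 1) := by ring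
      rw [h2] at h1
      exact h1
    · intro p hp
      obtain ⟨hpW, hp0⟩ := mem_filter.1 hp
      obtain ⟨hA, hB, l, e1, e2, e3⟩ := hEq p hpW
      refine ⟨hB _, ?_⟩
      have h1 := e3 (k + 1) (k + 2) k n2 n4 n5
      rw [sg_O p.2 k, hp0] at h1
      have h2 : p.2 k + p.2 (k + 1) + p.2 (k + 2) + l * (0 * p.2 (k + 1) * p.2 (k + 2)) =
        p.2 (k + 2) + (p.2 k + p.2 (k + 1)) := by ring
      rw [h2] at h1
      exact h1
    · intro p hp p' hp' h1 h2 h3
      obtain ⟨_, hp0⟩ := mem_filter.1 hp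
      obtain ⟨_, hp0'⟩ := mem_filter.1 hp'
      simp only [Prod.mk.injEq] at h1
      apply Prod.ext
      · exact ext_O k (hp0.trans hp0'.symm) h1.1.1 h2
      · exact ext_O k h1.1.2 h1.2 h3
  have hb2 : ∀ k, ((T2 k).card : ℝ) ≤
      ((Z ×ˢ I A).card : ℝ) * ((2 * A / c + 1) * (2 * B / c + 1)) := by
    intro k
    obtain ⟨n1, n2, n3, n4, n5⟩ := ne_O k
    apply cnt_O c A B hc (T2 k) (Z ×ˢ I A) (fun x => x.1.1 + x.2) (fun x => x.1.2)
      (fun p => ((p.1 k, p.2 (k + 1)), p.1 (k + 1))) (fun p => p.1 (k + 2)) (fun p => p.2 (k + 2))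
    · intro p hp
      obtain ⟨hpW, hp0⟩ := mem_filter.1 hp
      obtain ⟨hA, hB, l, e1, e2, e3⟩ := hEq p hpW
      rw [mem_product, hZ, mem_filter, mem_product]
      refine ⟨⟨⟨hA _, hB _⟩, ?_⟩, hA _⟩
      have h1 := e1 k (k + 1)
      rw [hp0, mul_zero, sub_zero] at h1
      exact h1
    · intro p hp
      obtain ⟨hpW, hp0⟩ := mem_filter.1 hp
      obtain ⟨hA, hB, l, e1, e2, e3⟩ := hEq p hpW
      refine ⟨hA _, ?_⟩
      have h1 := e2 (k + 1) (k + 2) k n2 n4 n5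
      rw [sg_O p.1 k, hp0] at h1
      have h2 : p.1 k + p.1 (k + 1) + p.1 (k + 2) + l * (p.1 (k + 1) * p.1 (k + 2) * 0) =
        p.1 (k + 2) + (p.1 k + p.1 (k + 1)) := by ring
      rw [h2] at h1
      exact h1
    · intro p hp
      obtain ⟨hpW, hp0⟩ := mem_filter.1 hp
      obtain ⟨hA, hB, l, e1, e2, e3⟩ := hEq p hpW
      refine ⟨hB _, ?_⟩
      have h1 := e3 k (k + 1) (k + 2) n1 n2 n3
      rw [sg_O p.2 k, hp0] at h1
      have h2 : 0 + p.2 (k + 1) + p.2 (k + 2) + l * (p.1 (k + 2) * 0 * p.2 (k + 1)) =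
        p.2 (k + 2) + p.2 (k + 1) := by ring
      rw [h2] at h1
      exact h1
    · intro p hp p' hp' h1 h2 h3
      obtain ⟨_, hp0⟩ := mem_filter.1 hp
      obtain ⟨_, hp0'⟩ := mem_filter.1 hp'
      simp only [Prod.mk.injEq] at h1
      apply Prod.ext
      · exact ext_O k h1.1.1 h1.2 h2
      · exact ext_O k (hp0.trans hp0'.symm) h1.1.2 h3
  -- the union
  have hcov : W ⊆ (univ : Finset (Fin 3)).biUnion fun k => T1 k ∪ T2 k := by
    intro p hp
    have h1 := (mem_filter.1 hp).2.1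
    unfold Nz at h1
    push Not at h1
    obtain ⟨k, hk⟩ := h1
    rw [mem_biUnion]
    refine ⟨k, mem_univ _, ?_⟩
    rw [mem_union]
    by_cases h0 : p.1 k = 0
    · exact Or.inl (mem_filter.2 ⟨hp, h0⟩)
    · exact Or.inr (mem_filter.2 ⟨hp, hk h0⟩)
  set M : ℝ := (2 * A + 1) + (2 * B + 1) + 4 * D * A * B / c with hM
  set Y : ℝ := (2 * A / c + 1) * (2 * B / c + 1) with hY
  have hY0 : 0 ≤ Y := by
    rw [hY]
    positivity
  have hWc : (W.card : ℝ) ≤ 3 * (M * (2 * B + 1) * Y + M * (2 * A + 1) * Y) := by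
    have h1 : W.card ≤ ∑ k : Fin 3, ((T1 k).card + (T2 k).card) :=
      ((card_le_card hcov).trans card_biUnion_le).trans
        (sum_le_sum fun k _ => card_union_le _ _)
    have h2 : (W.card : ℝ) ≤ ∑ k : Fin 3, (((T1 k).card : ℝ) + ((T2 k).card : ℝ)) := by
      exact_mod_cast h1
    refine h2.trans ?_
    calc ∑ k : Fin 3, (((T1 k).card : ℝ) + ((T2 k).card : ℝ))
        ≤ ∑ _k : Fin 3, (M * (2 * B + 1) * Y + M * (2 * A + 1) * Y) := by
          apply sum_le_sum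
          intro k _
          apply add_le_add
          · refine (hb1 k).trans ?_
            apply mul_le_mul_of_nonneg_right _ hY0
            rw [card_product, card_I]
            push_cast
            exact mul_le_mul_of_nonneg_right hZc (by positivity)
          · refine (hb2 k).trans ?_
            apply mul_le_mul_of_nonneg_right _ hY0
            rw [card_product, card_I]
            push_cast
            exact mul_le_mul_of_nonneg_right hZc (by positivity)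
      _ = _ := by
          rw [sum_const, card_univ, Fintype.card_fin, nsmul_eq_mul]
          norm_num
  have hfin : (WT c A B (fun t b => ¬ Nz t b) : ℝ) ≤ c * (W.card : ℝ) := by exact_mod_cast hWT
  calc (WT c A B (fun t b => ¬ Nz t b) : ℝ) ≤ c * (W.card : ℝ) := hfin
    _ ≤ c * (3 * (M * (2 * B + 1) * Y + M * (2 * A + 1) * Y)) :=
        mul_le_mul_of_nonneg_left hWc (by positivity)
    _ = _ := by
        rw [hY]
        ring

end Pool.Agent.Helper2.AL
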