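import Pool.Agent.Helper79.AL.St2

/-! # AL module PR: the pair lemma -/

set_option autoImplicit false

namespace Pool.Agent.Helper2.AL

open Matrix ComplexConjugate Pool.Agent.Helper94.YG
open Pool.Agent.Helper94.YF hiding StORB
open Pool.Agent.Helper89.OS Pool.Agent.Helper89.OC Pool.Agent.Helper79.AL

private theorem prod_div (γ : ℂ) (hγ : IsIntegral ℤ γ) : ∀ T : Finset ℕ, (∀ t ∈ T, t.Prime) →
    (∀ t ∈ T, ∃ β : ℂ, IsIntegral ℤ β ∧ γ = (t : ℂ) * β) →
    ∃ β : ℂ, IsIntegral ℤ β ∧ γ = ((∏ t ∈ T, t : ℕ) : ℂ) * β := by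
  intro T
  induction T using Finset.induction_on with
  | empty => intro _ _; exact ⟨γ, hγ, by simp⟩
  | insert t T ht ih =>
    intro hp hβ
    obtain ⟨β1, h1, e1⟩ := ih (fun s hs => hp s (Finset.mem_insert_of_mem hs))
      (fun s hs => hβ s (Finset.mem_insert_of_mem hs))
    obtain ⟨β2, h2, e2⟩ := hβ t (Finset.mem_insert_self _ _)
    have htp := hp t (Finset.mem_insert_self _ _)
    have hco : Nat.Coprime (∏ s ∈ T, s) t := by
      apply Nat.Coprime.prod_left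
      intro s hs
      rw [Nat.coprime_primes (hp s (Finset.mem_insert_of_mem hs)) htp]
      rintro rfl
      exact ht hs
    have hb : ((∏ s ∈ T, s : ℕ) : ℤ) * Nat.gcdA (∏ s ∈ T, s) t +
        (t : ℤ) * Nat.gcdB (∏ s ∈ T, s) t = 1 := by
      have := Nat.gcd_eq_gcd_ab (∏ s ∈ T, s) t
      rw [hco] at this
      rw [← this]; simp
    set u : ℤ := Nat.gcdA (∏ s ∈ T, s) t
    set v : ℤ := Nat.gcdB (∏ s ∈ T, s) t
    set M : ℕ := ∏ s ∈ T, s
    have hbc : (M : ℂ) * u + (t : ℂ) * v = 1 := by exact_mod_cast congrArg (Int.cast : ℤ → ℂ) hb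
    refine ⟨(u : ℂ) * β2 + (v : ℂ) * β1, ?_, ?_⟩
    · exact ((isIntegral_algebraMap (R := ℤ) (x := u)).mul h2).add
        ((isIntegral_algebraMap (R := ℤ) (x := v)).mul h1)
    · rw [Finset.prod_insert ht]
      push_cast
      calc γ = ((M : ℂ) * u + (t : ℂ) * v) * γ := by rw [hbc, one_mul]
        _ = (M : ℂ) * u * (t * β2) + (t : ℂ) * v * (M * β1) := by
            rw [← e2, ← e1]; ring
        _ = _ := by simp only [M]; push_cast; ring

theorem hPR : StPR := by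
  intro hKRO hGLA I _ _ Z i l T hT hβ hlt
  have gla := hGLA I Z
  have hSfint : IsIntegral ℤ (Sf Z i l) := by
    rw [gla.Sf_chi]
    exact (isIntegral_algebraMap (R := ℤ) (x := (Z.d i : ℤ))).mul (gla.chi_int i l) |> fun h => by
      simpa using h
  have hdd : IsIntegral ℤ ((Z.d i : ℂ) * Z.d l) := by
    have := isIntegral_algebraMap (R := ℤ) (A := ℂ) (x := ((Z.d i : ℤ) * Z.d l))
    simpa using this
  obtain ⟨β, hβi, hβe⟩ := prod_div (Sf Z i l - (Z.d i : ℂ) * Z.d l) (hSfint.sub hdd) T hT hβ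
  set M : ℕ := ∏ t ∈ T, t with hM
  have hMpos : (0 : ℝ) < (M : ℝ) := by
    have h0 : (0 : ℝ) ≤ 2 * (Z.d i : ℝ) * Z.d l := by positivity
    linarith
  have hβ0 : β = 0 := by
    apply hKRO β hβi
    intro σ
    have h1 : σ (Sf Z i l - (Z.d i : ℂ) * Z.d l) = (M : ℂ) * σ β := by
      rw [hβe, map_mul, map_natCast]
    have h2 : σ (Sf Z i l - (Z.d i : ℂ) * Z.d l) =
        (Z.d i : ℂ) * σ (Cchi Z i l) - (Z.d i : ℂ) * Z.d l := by
      rw [gla.Sf_chi, map_sub, map_mul, map_mul, map_natCast, map_natCast]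
    have h3 : ‖(Z.d i : ℂ) * σ (Cchi Z i l) - (Z.d i : ℂ) * Z.d l‖ ≤ 2 * (Z.d i : ℝ) * Z.d l := by
      refine (norm_sub_le _ _).trans ?_
      rw [norm_mul, norm_mul, Complex.norm_natCast, Complex.norm_natCast]
      have := gla.bound σ i l
      have h0 : (0 : ℝ) ≤ (Z.d i : ℝ) := Nat.cast_nonneg _
      nlinarith [mul_le_mul_of_nonneg_left this h0]
    have h4 : (M : ℝ) * ‖σ β‖ ≤ 2 * (Z.d i : ℝ) * Z.d l := by
      have : ‖(M : ℂ) * σ β‖ = (M : ℝ) * ‖σ β‖ := by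
        rw [norm_mul, Complex.norm_natCast]
      rw [← this, ← h1, h2]; exact h3
    by_contra hge
    push Not at hge
    nlinarith
  rw [hβ0, mul_zero] at hβe
  exact sub_eq_zero.mp hβe

end Pool.Agent.Helper2.AL
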