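import Pool.Agent.Helper24.AL.St
import Pool.Agent.Helper56.SW.M_Fac
import Pool.Agent.Helper56.SW.M_AP

/-! # MP_e188f1_nt, project AL, module Z0 -/

set_option autoImplicit false

namespace Pool.Agent.Helper2.AL

open Finset
open Pool.Agent.Helper24.AL
open Pool.Agent.Helper56.SW (τ I stFac stMul mem_I mem_I' card_I)

theorem hZ0 : StZ0 := by
  intro c A B D hc hD
  set S : Finset ℤ := (I (A * B)).filter fun j => j ≠ 0 ∧ (c : ℤ) ∣ j with hS
  have hSc : (S.card : ℝ) ≤ 2 * ((A * B : ℕ) : ℝ) / c :=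
    stMul (A * B) c S hc (filter_subset _ _) (fun x hx => (mem_filter.1 hx).2)
  have hSf := (stFac A B D S (by
    intro j hj
    have h1 := mem_filter.1 hj
    have h2 : j.natAbs ≤ A * B := mem_I'.1 h1.1
    exact ⟨h1.2.1, hD j.natAbs (Nat.one_le_iff_ne_zero.2 (Int.natAbs_ne_zero.2 h1.2.1)) h2⟩)).1
  have hsub : ((I A ×ˢ I B).filter fun p => (c : ℤ) ∣ p.1 * p.2) ⊆
      ((I A).image (fun x => (x, (0 : ℤ))) ∪ (I B).image (fun y => ((0 : ℤ), y))) ∪
        ((I A ×ˢ I B).filter fun p => p.1 * p.2 ∈ S) := by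
    rintro ⟨x, y⟩ hp
    obtain ⟨h1, h2⟩ := mem_filter.1 hp
    obtain ⟨hx, hy⟩ := mem_product.1 h1
    simp only at hx hy h2
    by_cases hy0 : y = 0
    · apply mem_union_left
      apply mem_union_left
      exact mem_image.2 ⟨x, hx, by rw [hy0]⟩
    by_cases hx0 : x = 0
    · apply mem_union_left
      apply mem_union_right
      exact mem_image.2 ⟨y, hy, by rw [hx0]⟩
    · apply mem_union_right
      rw [mem_filter]
      refine ⟨h1, ?_⟩
      rw [hS, mem_filter]
      refine ⟨?_, mul_ne_zero hx0 hy0, h2⟩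
      rw [mem_I'] at hx hy ⊢
      rw [Int.natAbs_mul]
      exact Nat.mul_le_mul hx hy
  have hcard : (((I A ×ˢ I B).filter fun p => (c : ℤ) ∣ p.1 * p.2).card : ℝ) ≤
      (2 * A + 1) + (2 * B + 1) + S.card * (2 * D) := by
    have h1 := card_le_card hsub
    have h2 := (card_union_le ((I A).image (fun x => (x, (0 : ℤ))) ∪
      (I B).image (fun y => ((0 : ℤ), y))) ((I A ×ˢ I B).filter fun p => p.1 * p.2 ∈ S))
    have h3 := card_union_le ((I A).image (fun x => (x, (0 : ℤ))))
      ((I B).image (fun y => ((0 : ℤ), y)))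
    have h4 : ((I A).image (fun x => (x, (0 : ℤ)))).card ≤ 2 * A + 1 := by
      rw [← card_I A]
      exact card_image_le
    have h5 : ((I B).image (fun y => ((0 : ℤ), y))).card ≤ 2 * B + 1 := by
      rw [← card_I B]
      exact card_image_le
    have h6 : ((I A ×ˢ I B).filter fun p => (c : ℤ) ∣ p.1 * p.2).card ≤
        (2 * A + 1) + (2 * B + 1) + ((I A ×ˢ I B).filter fun p => p.1 * p.2 ∈ S).card := by
      omega
    have h7 : (((I A ×ˢ I B).filter fun p => (c : ℤ) ∣ p.1 * p.2).card : ℝ) ≤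
        (2 * A + 1) + (2 * B + 1) + (((I A ×ˢ I B).filter fun p => p.1 * p.2 ∈ S).card : ℝ) := by
      exact_mod_cast h6
    linarith
  refine hcard.trans ?_
  have hlast : (S.card : ℝ) * (2 * D) ≤ 4 * D * A * B / c := by
    rcases Nat.eq_zero_or_pos (A * B) with h0 | hpos
    · have hSe : S.card = 0 := by
        have h1 : (S.card : ℝ) ≤ 0 := by
          rw [h0] at hSc
          simpa using hSc
        have h2 : S.card ≤ 0 := by exact_mod_cast h1
        omega
      rw [hSe]
      have h2 : (A : ℝ) * B = 0 := by exact_mod_cast h0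
      have h3 : 4 * D * (A : ℝ) * B / c = 4 * D * ((A : ℝ) * B) / c := by ring
      rw [h3, h2]
      simp
    · have hD1 : 0 ≤ D := by
        have h1 := hD 1 le_rfl hpos
        have h2 : (0 : ℝ) ≤ τ 1 := by
          unfold τ
          positivity
        linarith
      calc (S.card : ℝ) * (2 * D) ≤ (2 * ((A * B : ℕ) : ℝ) / c) * (2 * D) :=
            mul_le_mul_of_nonneg_right hSc (by positivity)
        _ = _ := by
            push_cast
            ring
  linarith

end Pool.Agent.Helper2.AL
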